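import Mathlib
import Pool.Agent.H180.NS.Stm
import Pool.Agent.H916K.Sign

/-!
# NS-Par: the sign of Frobenius
-/

set_option autoImplicit false

namespace Pool.Agent.Q164.NS

open Finset Pool.Agent.H180.NS Pool.Agent.H916K

variable {F : Type} [Field F] [Fintype F]

lemma shift {ψ ψ' : AddChar F ℂ} (h : ψ ≠ 1) (h' : ψ' ≠ 1) :
    ∃ c : F, c ≠ 0 ∧ ψ' = AddChar.mulShift ψ c := by
  classical
  have hinj : Function.Injective (fun c : F => AddChar.mulShift ψ c) := by
    intro c d hcd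
    by_contra hne
    apply (AddChar.IsPrimitive.of_ne_one h) (sub_ne_zero.mpr hne)
    ext x
    have h1 : ψ (c * x) = ψ (d * x) := by
      have := congrArg (fun f : AddChar F ℂ => f x) hcd
      simpa [AddChar.mulShift_apply] using this
    rw [AddChar.mulShift_apply, sub_mul, AddChar.map_sub_eq_div, h1, AddChar.one_apply]
    exact div_self (by
      intro h0
      have h2 : ψ (d * x) * ψ (-(d * x)) = 1 := by
        rw [← AddChar.map_add_eq_mul, add_neg_cancel, AddChar.map_zero_eq_one]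
      rw [h0, zero_mul] at h2
      exact zero_ne_one h2)
  have hb := (Fintype.bijective_iff_injective_and_card _).mpr
    ⟨hinj, (AddChar.card_eq (α := F)).symm⟩
  obtain ⟨c, hc⟩ := hb.2 ψ'
  refine ⟨c, ?_, hc.symm⟩
  rintro rfl
  apply h'
  rw [← hc]
  ext x
  simp

lemma gsq {l n u : ℕ} [Fact l.Prime] (hcard : Fintype.card F = l ^ (2 * n)) (hu : u ∣ l ^ n + 1)
    (hodd : Odd u) {θ : MulChar F ℂ} (hθu : θ ^ u = 1) (hθ : θ ≠ 1) {ψ : AddChar F ℂ}
    (hψ : ψ ≠ 1) : (gaussSum θ ψ ^ u) ^ 2 = (((l ^ n : ℕ) : ℂ) ^ u) ^ 2 := by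
  classical
  have : CharP F l := charP_of_card_eq_prime_pow hcard
  set fr : F →+* F := iterateFrobenius F l n with hfr
  have hfrx : ∀ x, fr x = x ^ l ^ n := fun x => by rw [hfr, iterateFrobenius_def]
  have hinv : ∀ x, fr (fr x) = x := by
    intro x
    rw [hfrx, hfrx, ← pow_mul, ← pow_add, ← two_mul, ← hcard]
    exact FiniteField.pow_card x
  set ψ' : AddChar F ℂ := ψ.compAddMonoidHom fr.toAddMonoidHom with hψ'
  have hψ'x : ∀ x, ψ' x = ψ (fr x) := fun x => rfl
  have hψ'1 : ψ' ≠ 1 := by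
    intro h0
    apply hψ
    ext x
    have : ψ' (fr x) = 1 := by rw [h0]; rfl
    rw [hψ'x, hinv] at this
    rw [this]; rfl
  obtain ⟨c, hc, hcψ⟩ := shift hψ hψ'1
  have hinvθ : θ⁻¹ = θ ^ (l ^ n) := by
    rw [inv_eq_iff_mul_eq_one, ← pow_succ']
    obtain ⟨k, hk⟩ := hu
    rw [hk, pow_mul, hθu, one_pow]
  have hl0 : l ^ n ≠ 0 := pow_ne_zero _ (Fact.out : l.Prime).ne_zero
  have h1 : gaussSum θ⁻¹ ψ = gaussSum θ ψ' := by
    unfold gaussSum
    have hbij : Function.Bijective fr := ⟨fr.injective, fun x => ⟨fr x, hinv x⟩⟩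
    rw [← hbij.sum_comp]
    refine sum_congr rfl fun x _ => ?_
    rw [hinvθ, MulChar.pow_apply' _ hl0, ← map_pow, ← hfrx, hinv, hψ'x]
  have h2 : θ c * gaussSum θ ψ' = gaussSum θ ψ := by
    rw [hcψ]
    have := gaussSum_mulShift θ ψ (Units.mk0 c hc)
    simpa using this
  have hθ1 : θ (-1) = 1 := by
    have h3 : θ (-1) ^ u = 1 := by
      rw [← MulChar.pow_apply' _ (by rintro rfl; exact absurd hodd (by decide)), hθu]
      exact MulChar.one_apply (isUnit_iff_ne_zero.mpr (by simp))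
    rwa [← map_pow, hodd.neg_one_pow] at h3
  have h3 : gaussSum θ ψ * gaussSum θ⁻¹ ψ = (Fintype.card F : ℂ) := by
    have h4 := gaussSum_mul_gaussSum_eq_card hθ (AddChar.IsPrimitive.of_ne_one hψ)
    have h5 := gaussSum_mulShift θ⁻¹ ψ (-1)
    have h6 : AddChar.mulShift ψ ((-1 : Fˣ) : F) = ψ⁻¹ := by
      ext x
      simp [AddChar.mulShift_apply, AddChar.inv_apply]
    have h7 : θ⁻¹ ((-1 : Fˣ) : F) = 1 := by
      rw [hinvθ, MulChar.pow_apply' _ hl0]
      simp [hθ1]
    rw [h6, h7, one_mul] at h5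
    rw [← h5]
    exact h4
  have h4 : gaussSum θ ψ ^ 2 = θ c * ((l ^ n : ℕ) : ℂ) ^ 2 := by
    have h5 : ((Fintype.card F : ℕ) : ℂ) = ((l ^ n : ℕ) : ℂ) ^ 2 := by
      rw [hcard]; push_cast; ring
    rw [← h5, ← h3, h1, ← h2]
    ring
  have hu0 : u ≠ 0 := by rintro rfl; exact absurd hodd (by decide)
  have h5 : θ c ^ u = 1 := by
    rw [← MulChar.pow_apply' _ hu0, hθu]
    exact MulChar.one_apply (isUnit_iff_ne_zero.mpr hc)
  rw [← pow_mul, mul_comm, pow_mul, h4, mul_pow, h5, one_mul]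
  ring

/-- the version over the algebraic integers, with the sign -/
lemma gpow {p a l n : ℕ} [Fact l.Prime] (hp : p.Prime) (hp2 : p ≠ 2) (ha : 0 < a)
    (hcard : Fintype.card F = l ^ (2 * n)) (hu : p ^ a ∣ l ^ n + 1) {θ : MulChar F AI}
    (hθu : θ ^ (p ^ a) = 1) (hθ : θ ≠ 1) {ψ : AddChar F AI} (hψ : ψ ≠ 1) :
    gaussSum θ ψ ^ (p ^ a) = ((l ^ n : ℕ) : AI) ^ (p ^ a) := by
  classical
  have hodd : Odd (p ^ a) := (hp.odd_of_ne_two hp2).pow
  have hinj : Function.Injective (algebraMap AI ℂ) := Subtype.val_injective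
  set θ' : MulChar F ℂ := θ.ringHomComp (algebraMap AI ℂ) with hθ'
  set ψ' : AddChar F ℂ := (algebraMap AI ℂ).toMonoidHom.compAddChar ψ with hψ'
  have hθ'1 : θ' ≠ 1 := by
    rw [hθ', Ne, MulChar.ringHomComp_eq_one_iff hinj]
    exact hθ
  have hθ'u : θ' ^ (p ^ a) = 1 := by
    rw [hθ', MulChar.ringHomComp_pow, hθu]
    exact MulChar.ringHomComp_one _
  have hψ'1 : ψ' ≠ 1 := by
    intro h
    apply hψ
    ext x
    have h1 : ψ' x = 1 := by rw [h]; rfl
    exact h1
  have hg : gaussSum θ' ψ' = algebraMap AI ℂ (gaussSum θ ψ) := by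
    unfold gaussSum
    rw [map_sum]
    refine sum_congr rfl fun x _ => ?_
    rw [map_mul, hθ', MulChar.ringHomComp_apply]
    rfl
  have h1 := gsq hcard hu hodd hθ'u hθ'1 hψ'1
  have h2 : (gaussSum θ ψ ^ (p ^ a)) ^ 2 = (((l ^ n : ℕ) : AI) ^ (p ^ a)) ^ 2 := by
    apply hinj
    rw [map_pow, map_pow, ← hg, h1, map_pow, map_pow, map_natCast]
  rcases sq_eq_sq_iff_eq_or_eq_neg.mp h2 with h3 | h3
  · exact h3
  · exfalso
    obtain ⟨k, _, _, ⟨φ⟩⟩ := exists_red hp
    have : Fact p.Prime := ⟨hp⟩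
    have hu0 : p ^ a ≠ 0 := pow_ne_zero _ hp.ne_zero
    have hval : ∀ x : F, x ≠ 0 → φ (θ x) = 1 := by
      intro x hx
      apply pow_one_of_char (q := p) (b := a)
      rw [← map_pow, ← MulChar.pow_apply' _ hu0, hθu,
        MulChar.one_apply (isUnit_iff_ne_zero.mpr hx), map_one]
    have hgk : φ (gaussSum θ ψ) = -1 := by
      have h4 : φ (gaussSum θ ψ) = φ (gaussSum (1 : MulChar F AI) ψ) := by
        unfold gaussSum
        rw [map_sum, map_sum]
        refine sum_congr rfl fun x _ => ?_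
        rw [map_mul, map_mul]
        congr 1
        by_cases hx : x = 0
        · rw [hx, MulChar.map_zero, MulChar.map_zero]
        · rw [hval x hx, MulChar.one_apply (isUnit_iff_ne_zero.mpr hx), map_one]
      rw [h4, gaussSum_one_left hψ, map_neg, map_one]
    have hQk : ((l ^ n : ℕ) : k) = -1 := by
      have h5 : ((l ^ n + 1 : ℕ) : k) = 0 := by
        rw [CharP.cast_eq_zero_iff k p]
        exact (dvd_pow_self p ha.ne').trans hu
      rw [Nat.cast_add, Nat.cast_one] at h5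
      exact eq_neg_of_add_eq_zero_left h5
    have h6 := congrArg φ h3
    rw [map_pow, hgk, map_neg, map_pow, map_natCast, hQk, hodd.neg_one_pow] at h6
    have h7 : ((2 : ℕ) : k) = 0 := by push_cast; linear_combination -h6
    rw [CharP.cast_eq_zero_iff k p] at h7
    exact hp2 ((Nat.prime_dvd_prime_iff_eq hp Nat.prime_two).mp h7)

lemma gred {p q a b l n : ℕ} [Fact l.Prime] (hp : p.Prime) (hp2 : p ≠ 2) (ha : 0 < a)
    (hq : q.Prime) (hpq : p ≠ q)
    (hcard : Fintype.card F = l ^ (2 * n)) (hu : p ^ a ∣ l ^ n + 1) {k : Type} [Field k] [CharP k q]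
    (φ : AI →+* k) (hlk : ((l ^ n : ℕ) : k) = 1) {χ : MulChar F AI}
    (hχ : orderOf χ = p ^ a * q ^ b) {ψ : AddChar F AI} (hψ : ψ ≠ 1) (e : ℕ) :
    φ (gaussSum (χ ^ e) ψ) ^ (p ^ a) = if p ^ a ∣ e then -1 else 1 := by
  classical
  have : Fact q.Prime := ⟨hq⟩
  have hodd : Odd (p ^ a) := (hp.odd_of_ne_two hp2).pow
  have hsame : ∀ a' : ℕ, e ≡ a' [MOD p ^ a] →
      φ (gaussSum (χ ^ e) ψ) = φ (gaussSum (χ ^ a') ψ) := by
    intro a' haa'
    unfold gaussSum
    rw [map_sum, map_sum]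
    refine sum_congr rfl fun x _ => ?_
    rw [map_mul, map_mul]
    congr 1
    by_cases hx : x = 0
    · rw [hx, MulChar.map_zero, MulChar.map_zero]
    · rw [mulChar_pow_apply χ e hx, mulChar_pow_apply χ a' hx, map_pow, map_pow]
      exact pow_eq_pow_of_modEq haa' (red_val (q := q) φ hχ hx)
  split_ifs with h
  · have h1 : e ≡ 0 [MOD p ^ a] := (Nat.modEq_zero_iff_dvd).mpr h
    rw [hsame 0 h1, pow_zero, gaussSum_one_left hψ, map_neg, map_one, hodd.neg_one_pow]
  · have hcop' : (p ^ a).Coprime (q ^ b) :=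
      Nat.Coprime.pow _ _ ((Nat.coprime_primes hp hq).mpr hpq)
    set a' : ℕ := (Nat.chineseRemainder hcop' e 0 : ℕ) with ha'
    have h1 : a' ≡ e [MOD p ^ a] := (Nat.chineseRemainder hcop' e 0).2.1
    have h2 : a' ≡ 0 [MOD q ^ b] := (Nat.chineseRemainder hcop' e 0).2.2
    rw [Nat.modEq_zero_iff_dvd] at h2
    rw [hsame a' h1.symm]
    have h3 : (χ ^ a') ^ (p ^ a) = 1 := by
      rw [← pow_mul, ← orderOf_dvd_iff_pow_eq_one, hχ, mul_comm]
      exact Nat.mul_dvd_mul_right h2 _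
    have h4 : χ ^ a' ≠ 1 := by
      intro h5
      apply h
      have h6 : p ^ a ∣ a' :=
        (Dvd.intro _ rfl : p ^ a ∣ p ^ a * q ^ b).trans (hχ ▸ orderOf_dvd_of_pow_eq_one h5)
      exact (Nat.modEq_zero_iff_dvd).mp (h1.symm.trans ((Nat.modEq_zero_iff_dvd).mpr h6))
    rw [← map_pow, gpow hp hp2 ha hcard hu h3 h4 hψ, map_pow, map_natCast, hlk, one_pow]

lemma val_int (χ : MulChar F ℂ) (x : F) : IsIntegral ℤ (χ x) := by
  classical
  by_cases hx : x = 0
  · rw [hx, MulChar.map_zero]; exact isIntegral_zero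
  · have h1 : χ x ^ (Fintype.card F - 1) = 1 := by
      rw [← map_pow, FiniteField.pow_card_sub_one_eq_one x hx, map_one]
    have h2 : 0 < Fintype.card F - 1 := Nat.sub_pos_of_lt Fintype.one_lt_card
    exact IsIntegral.of_pow h2 (by rw [h1]; exact isIntegral_one)

omit [Fintype F] in
lemma add_int {l : ℕ} [Fact l.Prime] [CharP F l] (ψ : AddChar F ℂ) (x : F) :
    IsIntegral ℤ (ψ x) := by
  have h1 : ψ x ^ l = 1 := by
    rw [← AddChar.map_nsmul_eq_pow, nsmul_eq_mul, CharP.cast_eq_zero, zero_mul,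
      AddChar.map_zero_eq_one]
  exact IsIntegral.of_pow (Fact.out : l.Prime).pos (by rw [h1]; exact isIntegral_one)

/-- **NS-Par.** -/
theorem par : S_Par := by
  classical
  intro p q a b l n _ hp hq hp2 hq2 hpq ha hb hpl hql F _ _ hcard χ0 ψ0 hχ0 hψ0 s hs heq
  have : CharP F l := charP_of_card_eq_prime_pow hcard
  have hinj : Function.Injective (algebraMap AI ℂ) := Subtype.val_injective
  let χ : MulChar F AI :=
    { toFun := fun x => ⟨χ0 x, val_int χ0 x⟩
      map_one' := Subtype.ext (map_one χ0)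
      map_mul' := fun x y => Subtype.ext (map_mul χ0 x y)
      map_nonunit' := fun x hx => Subtype.ext (χ0.map_nonunit hx) }
  let ψ : AddChar F AI :=
    { toFun := fun x => ⟨ψ0 x, add_int (l := l) ψ0 x⟩
      map_zero_eq_one' := Subtype.ext (AddChar.map_zero_eq_one ψ0)
      map_add_eq_mul' := fun x y => Subtype.ext (AddChar.map_add_eq_mul ψ0 x y) }
  have hχc : χ.ringHomComp (algebraMap AI ℂ) = χ0 := by
    ext x
    rfl
  have hψc : ∀ x, algebraMap AI ℂ (ψ x) = ψ0 x := fun x => rfl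
  have hχ : orderOf χ = p ^ a * q ^ b := by
    rw [← hχ0, ← hχc]
    exact (orderOf_injective (MulChar.ringHomCompHom (algebraMap AI ℂ))
      (MulChar.injective_ringHomComp hinj) χ).symm
  have hψ : ψ ≠ 1 := by
    intro h
    apply hψ0
    ext x
    rw [← hψc, h]
    rfl
  have hg : ∀ e : ℕ, gaussSum (χ0 ^ e) ψ0 = algebraMap AI ℂ (gaussSum (χ ^ e) ψ) := by
    intro e
    unfold gaussSum
    rw [map_sum]
    refine sum_congr rfl fun x _ => ?_
    rw [map_mul, ← hχc, MulChar.ringHomComp_pow, MulChar.ringHomComp_apply]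
    rfl
  have hcoef : ∀ (e : ℕ) (c : F), (χ0 ^ e) c = algebraMap AI ℂ ((χ ^ e) c) := by
    intro e c
    rw [← hχc, MulChar.ringHomComp_pow, MulChar.ringHomComp_apply]
  have h2 : (s.map fun z => gaussSum (χ ^ z.1.val) ψ).prod =
      (Fintype.card F : AI) ^ (Multiset.card s / 2) * (s.map fun z => (χ ^ z.1.val) z.2).prod := by
    apply hinj
    rw [map_mul, map_pow, map_natCast, map_multiset_prod, map_multiset_prod, Multiset.map_map,
      Multiset.map_map]
    have e1 : (s.map ((algebraMap AI ℂ) ∘ fun z => gaussSum (χ ^ z.1.val) ψ)) =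
        s.map fun z => gaussSum (χ0 ^ z.1.val) ψ0 :=
      Multiset.map_congr rfl fun z _ => (hg _).symm
    have e2 : (s.map ((algebraMap AI ℂ) ∘ fun z => (χ ^ z.1.val) z.2)) =
        s.map fun z => (χ0 ^ z.1.val) z.2 :=
      Multiset.map_congr rfl fun z _ => (hcoef _ _).symm
    rw [e1, e2]
    exact heq
  obtain ⟨k, _, _, ⟨φ⟩⟩ := exists_red hq
  have : Fact q.Prime := ⟨hq⟩
  have hodd : Odd (p ^ a) := (hp.odd_of_ne_two hp2).pow
  have hlk : ((l ^ n : ℕ) : k) = 1 := by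
    have h3 : ((l ^ n - 1 : ℕ) : k) = 0 := by
      rw [CharP.cast_eq_zero_iff k q]; exact hql
    rw [Nat.cast_sub (Nat.one_le_pow _ _ (Fact.out : l.Prime).pos), Nat.cast_one] at h3
    exact sub_eq_zero.mp h3
  have hck : (Fintype.card F : k) = 1 := by
    rw [hcard, mul_comm, pow_mul, Nat.cast_pow, hlk, one_pow]
  have h3 := congrArg (fun t => φ t ^ (p ^ a)) h2
  rw [map_mul, map_pow, map_natCast, map_multiset_prod, map_multiset_prod, Multiset.map_map,
    Multiset.map_map, hck, one_pow, one_mul, ← Multiset.prod_map_pow, ← Multiset.prod_map_pow] at h3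
  have e1 : (s.map fun z => (φ ∘ fun z : ZMod (p ^ a * q ^ b) × F =>
      gaussSum (χ ^ z.1.val) ψ) z ^ (p ^ a)) =
      s.map fun z => if p ^ a ∣ z.1.val then (-1 : k) else 1 :=
    Multiset.map_congr rfl fun z _ => gred hp hp2 ha hq hpq hcard hpl φ hlk hχ hψ _
  have e2 : (s.map fun z => (φ ∘ fun z : ZMod (p ^ a * q ^ b) × F =>
      (χ ^ z.1.val) z.2) z ^ (p ^ a)) = s.map fun _ => (1 : k) := by
    refine Multiset.map_congr rfl fun z hz => ?_
    rw [Function.comp_apply, mulChar_pow_apply χ _ (hs z hz), map_pow, ← pow_mul,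
      mul_comm z.1.val (p ^ a), pow_mul, red_val (q := q) φ hχ (hs z hz), one_pow]
  rw [e1, e2, prod_signs, Multiset.map_const', Multiset.prod_replicate, one_pow] at h3
  by_contra hno
  rw [Nat.not_even_iff_odd] at hno
  rw [hno.neg_one_pow] at h3
  have h4 : ((2 : ℕ) : k) = 0 := by push_cast; linear_combination -h3
  rw [CharP.cast_eq_zero_iff k q] at h4
  exact hq2 ((Nat.prime_dvd_prime_iff_eq hq Nat.prime_two).mp h4)

end Pool.Agent.Q164.NS
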